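import Pool.Agent.Helper14.WK.StA
import Pool.Agent.Helper28.WK.DefsP

/-!
# Project WK, MODULE KP4: Fricke relation for the central potential
-/

set_option autoImplicit false

open Pool.Agent.Helper14.CV (G0 Homog EqC act)
open Pool.Agent.Helper28.WK (pr cp WT pr_C_mul pr_X_pow)
open Pool.Agent.Helper14.WK

namespace Pool.Agent.Helper10.WK

private lemma mp_fricke (A N : ℕ) :
    mp A 0 (-1) N 0 A = Polynomial.C ((-1) ^ A * (N : ℤ) ^ A) * Polynomial.X ^ A := by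
  unfold mp
  have h : 2 * A - A = A := by omega
  rw [h, Polynomial.C_0, zero_mul, zero_add, add_zero, mul_pow, Polynomial.C_mul, Polynomial.C_pow,
    Polynomial.C_pow]
  ring

theorem hKP4 (h2 : SKP2) : SKP4 := by
  intro N hN A f I hI hf
  have hN0 : (N : ℂ) ≠ 0 := by
    have := hN.out
    exact_mod_cast this
  have hNp : 0 < N := Nat.pos_of_ne_zero hN.out
  have hκ : ∀ z : ℂ, 0 < z.im →
      fzK f ((((0 : ℤ) : ℂ) * z + ((-1 : ℤ) : ℂ)) / ((((N : ℕ) : ℤ) : ℂ) * z + ((0 : ℤ) : ℂ))) =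
        ((-1) ^ (A + 1) * ((N : ℂ) ^ (A + 1))⁻¹) *
          ((((N : ℕ) : ℤ) : ℂ) * z + ((0 : ℤ) : ℂ)) ^ (2 * A + 2) * fzK f z := by
    intro z hz
    have h1 := hf z hz
    have e1 : (((0 : ℤ) : ℂ) * z + ((-1 : ℤ) : ℂ)) / ((((N : ℕ) : ℤ) : ℂ) * z + ((0 : ℤ) : ℂ)) =
        -1 / (N * z) := by
      push_cast
      ring
    rw [e1, h1]
    have e2 : ((((N : ℕ) : ℤ) : ℂ) * z + ((0 : ℤ) : ℂ)) ^ (2 * A + 2) =
        (N : ℂ) ^ (A + 1) * (N : ℂ) ^ (A + 1) * z ^ (2 * A + 2) := by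
      push_cast
      rw [add_zero, mul_pow, ← pow_add]
      congr 2
      omega
    rw [e2]
    have h3 : (N : ℂ) ^ (A + 1) ≠ 0 := pow_ne_zero _ hN0
    field_simp
  obtain ⟨C, hC⟩ := h2 N hN A f I 0 (-1) N 0 _ hI (by simpa using hNp) hκ A (by omega)
  refine ⟨C, ?_⟩
  intro p q hpq
  have h := hC p q hpq
  rw [mp_fricke, pr_C_mul, pr_X_pow] at h
  have e3 : act 0 (-1) (N : ℤ) 0 (cp I A) p q = I (0 * p + -1 * q) ((N : ℤ) * p + 0 * q) A := rfl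
  rw [e3, h]
  have h4 : (N : ℂ) ^ (A + 1) ≠ 0 := pow_ne_zero _ hN0
  have e5 : ((-1 : ℂ) ^ A) * ((-1 : ℂ) ^ A) = 1 := by
    rw [← mul_pow]
    norm_num
  have e4 : ((-1 : ℂ) ^ (A + 1) * ((N : ℂ) ^ (A + 1))⁻¹) * (((0 * 0 - -1 * (N : ℤ) : ℤ)) : ℂ) *
      (((-1) ^ A * (N : ℤ) ^ A : ℤ) : ℂ) = -1 := by
    have e6 : (((0 * 0 - -1 * (N : ℤ) : ℤ)) : ℂ) = (N : ℂ) := by
      push_cast
      ring
    have e7 : (((-1) ^ A * (N : ℤ) ^ A : ℤ) : ℂ) = (-1) ^ A * (N : ℂ) ^ A := by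
      push_cast
      ring
    rw [e6, e7, pow_succ (-1 : ℂ) A]
    have e8 : (-1 : ℂ) ^ A * -1 * ((N : ℂ) ^ (A + 1))⁻¹ * (N : ℂ) * ((-1) ^ A * (N : ℂ) ^ A) =
        -(((-1 : ℂ) ^ A * (-1 : ℂ) ^ A) * (((N : ℂ) ^ (A + 1))⁻¹ * (N : ℂ) ^ (A + 1))) := by
      rw [pow_succ (N : ℂ) A]
      ring
    rw [e8, e5, inv_mul_cancel₀ h4]
    ring
  have e9 : (((-1) ^ A * (N : ℤ) ^ A : ℤ) • cp I A) p q =
      (((-1) ^ A * (N : ℤ) ^ A : ℤ) : ℂ) * I p q A := by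
    simp only [Pi.smul_apply, zsmul_eq_mul]
    rfl
  rw [e9, ← mul_assoc, e4]
  simp only [Pi.neg_apply, cp]
  ring

end Pool.Agent.Helper10.WK
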