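import Pool.Agent.Helper28.WK.StB

/-!
# Project WK, MODULE LA: Theorem A at the level `(M, M+ν)`
-/

set_option autoImplicit false

open Pool.Agent.Helper14.CV Pool.Agent.Helper28.WK

namespace Pool.Agent.Helper10.WK

variable {R : Type} [AddCommGroup R]

/-- The potential `G(k x, y)`. -/
private def Gp (k : ℤ) (G : ℤ → ℤ → R) : ℤ → ℤ → R := fun x y => G (k * x) y

/-- The potential `G(x, k y)`. -/
private def Gq (k : ℤ) (G : ℤ → ℤ → R) : ℤ → ℤ → R := fun x y => G x (k * y)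

private lemma or_p {k : ℤ} (hk : k ≠ 0) {p q : ℤ} (h : p ≠ 0 ∨ q ≠ 0) : (k * p ≠ 0 ∨ q ≠ 0) := by
  rcases h with h0 | h0
  · exact Or.inl (mul_ne_zero hk h0)
  · exact Or.inr h0

private lemma or_q {k : ℤ} (hk : k ≠ 0) {p q : ℤ} (h : p ≠ 0 ∨ q ≠ 0) : (p ≠ 0 ∨ k * q ≠ 0) := by
  rcases h with h0 | h0
  · exact Or.inl h0
  · exact Or.inr (mul_ne_zero hk h0)

omit [AddCommGroup R] in
private lemma homog_Gp {k : ℤ} (hk : k ≠ 0) {G : ℤ → ℤ → R} (h : Homog G) : Homog (Gp k G) := by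
  intro c x y hc hxy
  have e := h c (k * x) y hc (or_p hk hxy)
  have e1 : k * (c * x) = c * (k * x) := by ring
  simp only [Gp]
  rw [e1, e]

omit [AddCommGroup R] in
private lemma homog_Gq {k : ℤ} (hk : k ≠ 0) {G : ℤ → ℤ → R} (h : Homog G) : Homog (Gq k G) := by
  intro c x y hc hxy
  have e := h c x (k * y) hc (or_q hk hxy)
  have e1 : k * (c * y) = c * (k * y) := by ring
  simp only [Gq]
  rw [e1, e]

private lemma Tl_Gp (l : ℕ) (k : ℤ) (G : ℤ → ℤ → R) : Tl l 1 (Gp k G) = Gp k (Tl l k G) := by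
  funext p q
  simp only [Tl, Gp]
  congr 1
  · congr 1
    ring
  · refine Finset.sum_congr rfl ?_
    intro j _
    congr 1
    ring

private lemma Tw_Gp (k : ℤ) (ls : List ℕ) (G : ℤ → ℤ → R) :
    Tw 1 ls (Gp k G) = Gp k (Tw k ls G) := by
  induction ls with
  | nil => rfl
  | cons l ls ih =>
    show Tl l 1 (Tw 1 ls (Gp k G)) = Gp k (Tl l k (Tw k ls G))
    rw [ih, Tl_Gp]

private lemma homog_Tl {G : ℤ → ℤ → R} (l : ℕ) (hl : 0 < l) (m : ℤ) (h : Homog G) :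
    Homog (Tl l m G) := by
  intro k p q hk hpq
  have hl0 : (l : ℤ) ≠ 0 := by exact_mod_cast hl.ne'
  simp only [Tl]
  congr 1
  · have e := h k (l * p) q hk (by
      rcases hpq with h0 | h0
      · exact Or.inl (mul_ne_zero hl0 h0)
      · exact Or.inr h0)
    rw [← e]
    congr 1
    ring
  · refine Finset.sum_congr rfl ?_
    intro j _
    have e := h k (p + m * j * q) (l * q) hk (by
      by_cases hq : q = 0
      · left
        rcases hpq with h0 | h0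
        · rw [hq, mul_zero, add_zero]
          exact h0
        · exact absurd hq h0
      · exact Or.inr (mul_ne_zero hl0 hq))
    rw [← e]
    congr 1
    · ring
    · ring

private lemma homog_Tw {p : ℕ} (m : ℤ) (ls : List ℕ) (hls : Ok p ls) {G : ℤ → ℤ → R}
    (h : Homog G) : Homog (Tw m ls G) := by
  induction ls with
  | nil => exact h
  | cons l ls ih =>
    show Homog (Tl l m (Tw m ls G))
    have h1 := hls l (List.mem_cons_self)
    exact homog_Tl l h1.1.pos m (ih fun l' hl' => hls l' (List.mem_cons_of_mem l hl'))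

/-- the level of `G(p^M x, y)` -/
private lemma sym_Gp {p : ℕ} (hp : p ≠ 0) {M ν : ℕ} {G : ℤ → ℤ → R} (h : SymP p M (M + ν) G) :
    SymP p 0 (2 * M + ν) (Gp ((p : ℤ) ^ M) G) := by
  have hp0 : (p : ℤ) ≠ 0 := by exact_mod_cast hp
  have hP : (p : ℤ) ^ M ≠ 0 := pow_ne_zero _ hp0
  refine ⟨homog_Gp hP h.1, ?_⟩
  intro a b c d hdet _ hc
  obtain ⟨c', hc'⟩ := hc
  have e0 : (p : ℤ) ^ (2 * M + ν) = (p : ℤ) ^ M * (p : ℤ) ^ (M + ν) := by
    rw [← pow_add]
    congr 1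
    omega
  rw [e0] at hc'
  obtain ⟨k, hk⟩ := h.2 a ((p : ℤ) ^ M * b) ((p : ℤ) ^ (M + ν) * c') d
    (by rw [← hdet, hc']; ring) (Dvd.intro _ rfl) (Dvd.intro _ rfl)
  refine ⟨k, ?_⟩
  intro x y hxy
  have e := hk ((p : ℤ) ^ M * x) y (or_p hP hxy)
  simp only [act, Gp] at e ⊢
  have e1 : (p : ℤ) ^ M * (a * x + b * y) = a * ((p : ℤ) ^ M * x) + (p : ℤ) ^ M * b * y := by ring
  have e2 : c * x + d * y = (p : ℤ) ^ (M + ν) * c' * ((p : ℤ) ^ M * x) + d * y := by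
    rw [hc']
    ring
  rw [e1, e2, e]

/-- the level of `G(x, p^M y)` -/
private lemma sym_Gq {p : ℕ} (hp : p ≠ 0) {M ν : ℕ} (hν : 1 ≤ ν) {G : ℤ → ℤ → R}
    (h : SymP p 0 (2 * M + ν - 1) G) : SymP p M (M + ν - 1) (Gq ((p : ℤ) ^ M) G) := by
  have hp0 : (p : ℤ) ≠ 0 := by exact_mod_cast hp
  have hP : (p : ℤ) ^ M ≠ 0 := pow_ne_zero _ hp0
  refine ⟨homog_Gq hP h.1, ?_⟩
  intro a b c d hdet hb hc
  obtain ⟨b', hb'⟩ := hb
  obtain ⟨c', hc'⟩ := hc
  have e0 : (p : ℤ) ^ (2 * M + ν - 1) = (p : ℤ) ^ M * (p : ℤ) ^ (M + ν - 1) := by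
    rw [← pow_add]
    congr 1
    omega
  obtain ⟨k, hk⟩ := h.2 a b' ((p : ℤ) ^ M * c) d
    (by rw [← hdet, hb']; ring) (by rw [pow_zero]; exact one_dvd _)
    (by rw [e0, hc']; exact ⟨c', by ring⟩)
  refine ⟨k, ?_⟩
  intro x y hxy
  have e := hk x ((p : ℤ) ^ M * y) (or_q hP hxy)
  simp only [act, Gq] at e ⊢
  have e1 : a * x + b * y = a * x + b' * ((p : ℤ) ^ M * y) := by
    rw [hb']
    ring
  have e2 : (p : ℤ) ^ M * (c * x + d * y) = (p : ℤ) ^ M * c * x + d * ((p : ℤ) ^ M * y) := by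
    ring
  rw [e1, e2, e]

theorem hLa : StLa := by
  intro p hpf hTA ν M g hν hM hg hfr hst hev
  have hp : p ≠ 0 := hpf.out.ne_zero
  have hp0 : (p : ℤ) ≠ 0 := by exact_mod_cast hp
  set P : ℤ := (p : ℤ) ^ M with hPdef
  have hP : P ≠ 0 := pow_ne_zero _ hp0
  have hfr' : EqC (act 0 (-1) ((p : ℤ) ^ (2 * M + ν)) 0 (Gp P g)) (-(Gp P g)) := by
    obtain ⟨k, hk⟩ := hfr
    refine ⟨k, ?_⟩
    intro x y hxy
    have e := hk (P * x) y (or_p hP hxy)
    simp only [act, Gp, Pi.neg_apply] at e ⊢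
    rw [← e]
    have e0 : (p : ℤ) ^ (2 * M + ν) = P * (P * (p : ℤ) ^ ν) := by
      rw [hPdef, ← pow_add, ← pow_add]
      congr 1
      omega
    have hne : (0 * (P * x) + -1 * y ≠ 0 ∨ (p : ℤ) ^ ν * (P * x) + 0 * y ≠ 0) := by
      rcases hxy with h0 | h0
      · right
        rw [zero_mul, add_zero]
        exact mul_ne_zero (pow_ne_zero _ hp0) (mul_ne_zero hP h0)
      · left
        rw [zero_mul, zero_add, neg_one_mul]
        exact neg_ne_zero.2 h0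
    have e1 := hg.1 P _ _ hP hne
    rw [← e1]
    congr 1
    · ring
    · rw [e0]
      ring
  have hst' : EqC (act (-1) 0 0 1 (Gp P g)) (Gp P g) := by
    obtain ⟨k, hk⟩ := hst
    refine ⟨k, ?_⟩
    intro x y hxy
    have e := hk (P * x) y (or_p hP hxy)
    simp only [act, Gp] at e ⊢
    rw [← e]
    congr 1
    · ring
    · ring
  have hev' : ∀ ls : List ℕ, Ok p ls → evw 1 ls (Gp P g) = 0 := by
    intro ls hls
    have h1 := hev ls hls
    unfold evw at h1 ⊢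
    rw [Tw_Gp]
    have h2 := homog_Tw P ls hls hg.1 P 1 0 hP (Or.inl one_ne_zero)
    rw [mul_zero] at h2
    simp only [Gp]
    rw [mul_zero, h2]
    exact h1
  obtain ⟨ψ, hψ1, k, hk⟩ := hTA (2 * M + ν) M (Gp P g) (by omega) (sym_Gp hp hg) hfr' hst' hev'
  refine ⟨Gq P ψ, sym_Gq hp hν hψ1, k, ?_⟩
  intro x y hxy
  have e := hk x (P * y) (or_q hP hxy)
  simp only [act, Gp, Gq, Pi.sub_apply, Pi.smul_apply] at e ⊢
  have e1 := hg.1 P x y hP hxy
  rw [e1] at e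
  rw [← e]
  congr 2
  · ring
  · ring

end Pool.Agent.Helper10.WK
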